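import Pool.Agent.SZp.Defs
import Pool.Agent.SZ.Ana

/-!
# Summation over the finite fields of characteristic `p`
-/

namespace Pool.Agent.SZp

open Pool.Agent.Hhelper85 Polynomial Pool.Agent.SZ Pool.Agent.CAB

/-- The weight of a finite field of characteristic `p`; zero for the other characteristics. -/
noncomputable def prp (p : ℕ) (σ : ℝ) (x : Nat.Primes × ℕ) : ℝ :=
  if (x.1 : ℕ) = p then pr σ x else 0

lemma prp_nonneg (p : ℕ) (σ : ℝ) (x : Nat.Primes × ℕ) : 0 ≤ prp p σ x := by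
  unfold prp
  split_ifs
  · exact pr_nonneg σ x
  · exact le_rfl

/-- The sum over the powers of `p` converges for `σ > 0`. Proof: `summable_pr_dvd` (SZ/Ana.lean) with
`N = p`; a prime divides the prime `p` iff it is equal to `p`. -/
theorem summable_prp {p : ℕ} [Fact p.Prime] {σ : ℝ} (hσ : 0 < σ) :
    Summable fun x : Nat.Primes × ℕ => prp p σ x := by
  have hp : p.Prime := Fact.out
  have h := summable_pr_dvd hσ (N := p) hp.ne_zero
  have e : (fun x : Nat.Primes × ℕ => prp p σ x)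
      = fun x : Nat.Primes × ℕ => if (x.1 : ℕ) ∣ p then pr σ x else 0 := by
    funext x
    unfold prp
    by_cases hx : (x.1 : ℕ) = p
    · rw [if_pos hx, if_pos (by rw [hx])]
    · rw [if_neg hx, if_neg]
      intro hd
      exact hx ((Nat.prime_dvd_prime_iff_eq x.1.2 hp).mp hd)
  rw [e]
  exact h

/-- A bound for the terms of a series which vanishes outside the characteristic `p`. Proof: for
`x.2 = 0` the left side is `0` (`pr_eq_zero`); for `(x.1 : ℕ) ≠ p` also, by `h0`; otherwise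
`h1` and `pow_mul_pr`. -/
theorem summable_of_bound {p : ℕ} [Fact p.Prime] {f : Nat.Primes × ℕ → ℝ} (hf : ∀ x, 0 ≤ f x)
    (h0 : ∀ x : Nat.Primes × ℕ, (x.1 : ℕ) ≠ p → f x = 0) {C : ℝ} {τ : ℝ}
    (h1 : ∀ x : Nat.Primes × ℕ, x.2 ≠ 0 → f x ≤ C * ((x.1 : ℝ) ^ τ) ^ x.2) {σ : ℝ}
    (hσ : τ < σ) : Summable fun x : Nat.Primes × ℕ => f x * pr σ x := by
  have hs : Summable fun x : Nat.Primes × ℕ => C * prp p (σ - τ) x :=
    (summable_prp (by linarith)).mul_left C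
  refine Summable.of_nonneg_of_le (fun x => mul_nonneg (hf x) (pr_nonneg σ x)) (fun x => ?_) hs
  by_cases hx : (x.1 : ℕ) = p
  · by_cases hn : x.2 = 0
    · unfold prp
      rw [pr_eq_zero σ hn, pr_eq_zero (σ - τ) hn]
      simp
    · unfold prp
      rw [if_pos hx]
      have hx0 : (0 : ℝ) < x.1 := by exact_mod_cast x.1.2.pos
      have e : ((x.1 : ℝ) ^ τ) ^ x.2 * pr σ x = pr (σ - τ) x := by
        unfold pr
        rw [← mul_div_assoc, ← mul_pow, ← Real.rpow_add hx0]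
        congr 3
        ring
      rw [← e, ← mul_assoc]
      exact mul_le_mul_of_nonneg_right (h1 x hn) (pr_nonneg σ x)
  · unfold prp
    rw [h0 x hx, if_neg hx]
    simp

/-- The points of a finitely generated domain: absolute convergence for `Re s > δ`. Proof:
`summable_of_bound`, `FGDp.hN_le`, `FGDp.hN_zero`. -/
theorem FGDp.summable {p : ℕ} [Fact p.Prime] {A : Type} [CommRing A] {δ : ℕ} (hA : FGDp p A δ)
    {σ : ℝ} (hσ : (δ : ℝ) < σ) :
    Summable fun x : Nat.Primes × ℕ => (hN A x : ℝ) * pr σ x := by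
  obtain ⟨C, hC⟩ := hA.hN_le
  refine summable_of_bound (p := p) (f := fun x => (hN A x : ℝ)) (C := (C : ℝ)) (τ := (δ : ℝ))
    (fun x => Nat.cast_nonneg _) (fun x hx => ?_) (fun x hx => ?_) hσ
  · show (hN A x : ℝ) = 0
    rw [hA.hN_zero hx]
    simp
  · show (hN A x : ℝ) ≤ C * ((x.1 : ℝ) ^ (δ : ℝ)) ^ x.2
    have h := hC x hx
    have e : ((x.1 : ℝ) ^ (δ : ℝ)) ^ x.2 = ((x.1 : ℝ) ^ x.2) ^ δ := by
      rw [Real.rpow_natCast, ← pow_mul, ← pow_mul, mul_comm]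
    rw [e]
    exact_mod_cast h

/-- The points of a proper closed subset: absolute convergence for `Re s > δ - 1`. -/
theorem FGDp.summable_hV {p : ℕ} [Fact p.Prime] {A : Type} [CommRing A] {δ : ℕ}
    (hA : FGDp p A δ) {g : A} (hg : g ≠ 0) {σ : ℝ} (hσ : (δ : ℝ) - 1 < σ) :
    Summable fun x : Nat.Primes × ℕ => (hV A g x : ℝ) * pr σ x := by
  obtain ⟨C, hC⟩ := hA.hV_le hg
  refine summable_of_bound (p := p) (f := fun x => (hV A g x : ℝ)) (C := (C : ℝ))
    (τ := (δ : ℝ) - 1)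
    (fun x => Nat.cast_nonneg _) (fun x hx => ?_) (fun x hx => ?_) hσ
  · show (hV A g x : ℝ) = 0
    rw [hA.hV_zero g hx]
    simp
  · show (hV A g x : ℝ) ≤ C * ((x.1 : ℝ) ^ ((δ : ℝ) - 1)) ^ x.2
    have h : (x.1 : ℝ) ^ x.2 * (hV A g x : ℝ) ≤ C * ((x.1 : ℝ) ^ x.2) ^ δ := by
      exact_mod_cast hC x hx
    have hx0 : (0 : ℝ) < x.1 := by exact_mod_cast x.1.2.pos
    have hx1 : (0 : ℝ) < (x.1 : ℝ) ^ x.2 := by positivity
    have e : (x.1 : ℝ) ^ x.2 * ((x.1 : ℝ) ^ ((δ : ℝ) - 1)) ^ x.2 = ((x.1 : ℝ) ^ x.2) ^ δ := by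
      rw [← mul_pow]
      have e2 : (x.1 : ℝ) * (x.1 : ℝ) ^ ((δ : ℝ) - 1) = (x.1 : ℝ) ^ δ := by
        nth_rewrite 1 [← Real.rpow_one (x.1 : ℝ)]
        rw [← Real.rpow_add hx0, ← Real.rpow_natCast]
        congr 1
        ring
      rw [e2, ← pow_mul, ← pow_mul, mul_comm]
    rw [← e] at h
    have h2 : (x.1 : ℝ) ^ x.2 * (hV A g x : ℝ)
        ≤ (x.1 : ℝ) ^ x.2 * (C * ((x.1 : ℝ) ^ ((δ : ℝ) - 1)) ^ x.2) := by
      linarith
    exact le_of_mul_le_mul_left h2 hx1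

end Pool.Agent.SZp
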