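import Pool.Agent.SZp.MomPt
import Pool.Agent.SZp.Ana
import Pool.Agent.CAB.UncS
import Pool.Agent.WPl.FinalQ

/-!
# The series of a family of `C_ab` curves over a finitely generated domain of characteristic `p`
-/

namespace Pool.Agent.SZp

open Polynomial Finset Pool.Agent.Hhelper85 Pool.Agent.SZ Pool.Agent.CAB

/-- The Weil bound for `C_ab` curves over the finite fields of characteristic `p`. Proof: as `cab_weil`
(CAB/UncS.lean), with `WPl.weil_plane_q`. -/
theorem cab_weil_q (p : ℕ) [Fact p.Prime] {a b : ℕ} (hn : Num a b) :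
    ∃ C : ℝ, 0 ≤ C ∧ ∀ (K : Type) [Field K] [Finite K] [CharP K p] (P : K[X][X]), IsCab a b P →
      derivative P ≠ 0 → |(af P : ℝ)| ≤ C * Real.sqrt (Nat.card K) := by
  obtain ⟨C, hC⟩ := WPl.weil_plane_q p a b
  refine ⟨|C|, abs_nonneg _, ?_⟩
  intro K _ _ _ P hP hd
  have ha := hn.ha
  have h1 := hC K P hP.monic hP.deg (fun j => hP.natDegree_coeff_le (by omega) j) hd
    ((hP.map (algebraMap K (AlgebraicClosure K))).prime hn).irreducible
  have h2 : (Nat.card {z : K × K // P.evalEval z.1 z.2 = 0} : ℝ) = NF P := rfl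
  rw [h2] at h1
  rw [af]
  push_cast
  rw [abs_sub_comm]
  exact h1.trans (mul_le_mul_of_nonneg_right (le_abs_self C) (Real.sqrt_nonneg _))

/-- The derivative of a member of the family. -/
lemma derivative_fam {K : Type*} [Field K] {k : ℕ} (P : K[X][X]) (u : Fin k → K) :
    derivative (fam P u) = derivative P := by
  rw [fam, derivative_add, derivative_C, add_zero]

/-- The fourth moment. Proof: as `fourth_one` (CAB/UncS.lean), with `cab_weil_q`; the derivative of
`fam P u` is `derivative P`. -/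
theorem fourth_q (p : ℕ) [Fact p.Prime] {a b k : ℕ} (hn : Num a b) (hkb : k ≤ b) :
    ∃ C4 : ℝ, 0 ≤ C4 ∧ ∀ (K : Type) [Field K] [Finite K] [CharP K p] (P : K[X][X]),
      IsCab a b P → derivative P ≠ 0 →
      ∑ᶠ u : Fin k → K, (af (fam P u) : ℝ) ^ 4 ≤ C4 * (Nat.card K : ℝ) ^ (k + 2) := by
  obtain ⟨C, hC0, hC⟩ := cab_weil_q p hn
  refine ⟨C ^ 4, by positivity, ?_⟩
  intro K _ _ _ P hP hd
  have ha := hn.ha
  let i1 : Fintype K := Fintype.ofFinite _
  rw [finsum_eq_sum_of_fintype]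
  have key : ∀ u : Fin k → K, (af (fam P u) : ℝ) ^ 4 ≤ C ^ 4 * (Nat.card K : ℝ) ^ 2 := by
    intro u
    have h1 := hC K (fam P u) (isCab_fam (by omega) hP hkb u) (by rwa [derivative_fam])
    have h2 := pow_le_pow_left₀ (abs_nonneg _) h1 4
    rw [← abs_pow, abs_of_nonneg (by positivity)] at h2
    refine h2.trans (le_of_eq ?_)
    have hs : Real.sqrt (Nat.card K : ℝ) ^ 2 = (Nat.card K : ℝ) := Real.sq_sqrt (by positivity)
    rw [mul_pow]
    congr 1
    calc Real.sqrt (Nat.card K : ℝ) ^ 4 = (Real.sqrt (Nat.card K : ℝ) ^ 2) ^ 2 := by ring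
      _ = (Nat.card K : ℝ) ^ 2 := by rw [hs]
  refine (Finset.sum_le_sum fun u _ => key u).trans (le_of_eq ?_)
  rw [Finset.sum_const, nsmul_eq_mul, Finset.card_univ, Fintype.card_fun, Fintype.card_fin,
    ← Nat.card_eq_fintype_card]
  push_cast
  ring

/-- Summability from a bound of the terms, for a function which vanishes outside the
characteristic `p`. -/
lemma summable_of_le {p : ℕ} [Fact p.Prime] {f : Nat.Primes × ℕ → ℝ} (hf : ∀ x, 0 ≤ f x)
    (h0 : ∀ x : Nat.Primes × ℕ, (x.1 : ℕ) ≠ p → f x = 0) {C σ τ : ℝ} (hC : 0 ≤ C) (hτ : 0 < τ)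
    (h1 : ∀ x : Nat.Primes × ℕ, x.2 ≠ 0 → f x * pr σ x ≤ C * pr τ x) :
    Summable fun x : Nat.Primes × ℕ => f x * pr σ x := by
  refine Summable.of_nonneg_of_le (fun x => mul_nonneg (hf x) (pr_nonneg _ _)) (fun x => ?_)
    ((summable_prp (p := p) hτ).mul_left C)
  by_cases hx : (x.1 : ℕ) = p
  · by_cases hx2 : x.2 = 0
    · rw [pr_eq_zero σ hx2, mul_zero]
      exact mul_nonneg hC (prp_nonneg _ _ _)
    · rw [prp, if_pos hx]
      exact h1 x hx2
  · rw [h0 x hx, zero_mul]
    exact mul_nonneg hC (prp_nonneg _ _ _)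

/-- The three series of a family of `C_ab` curves. Proof: `c` = the product of a nonzero coefficient of
`Δ` and a nonzero coefficient (in `R₀`) of `derivative P₀`. For `φ c ≠ 0` the first estimate of
`pointwise_at` with `fourth_q` (`GF x.1 x.2` has characteristic `p`), otherwise the second one; so
`|TP x| ≤ hN R₀ x · M q ^ (r + k - 1) q ^ (3/4) + hV R₀ c x · M q ^ (r + k + 1/2)`
`≤ C q ^ (δ + r + k - 1/4)` by `FGDp.hN_le` and `FGDp.hV_le`; everything vanishes for
`(x.1 : ℕ) ≠ p` (no homomorphisms, `FGDp.isEmpty`); `summable_of_bound`. See `momS_cab`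
(CAB/UncS.lean) for the other two series. -/
theorem momS_cab {p : ℕ} [Fact p.Prime] {R₀ : Type} [CommRing R₀] {δ : ℕ} (hA : FGDp p R₀ δ)
    {a b k : ℕ} (hn : Num a b) {P₀ : R₀[X][X]} (hP : IsCab a b P₀) (hd : derivative P₀ ≠ 0)
    (hk : 2 ≤ k) (hkb : k ≤ b) {Δ : MvPolynomial (Fin k) R₀} (hΔ : Δ ≠ 0) (r : ℕ) :
    MomS P₀ Δ r (δ : ℝ) := by
  classical
  have hft := hA.ft
  have hdom := hA.dom
  obtain ⟨C4, hC40, hC4⟩ := fourth_q p (k := k) hn hkb
  have ha := hn.ha
  obtain ⟨M, hM0, H⟩ := pointwise_at (Δ := Δ) hP.monic hP.deg (by omega) hk hC40 r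
  obtain ⟨C, hC⟩ := hA.hN_le
  have hCr : ∀ x : Nat.Primes × ℕ, x.2 ≠ 0 → (hN R₀ x : ℝ) ≤ C * ((x.1 : ℝ) ^ x.2) ^ δ := by
    intro x hx
    exact_mod_cast hC x hx
  -- the denominator
  obtain ⟨m₁, hm₁⟩ : ∃ m, Δ.coeff m ≠ 0 := by
    by_contra hcon
    push Not at hcon
    exact hΔ (MvPolynomial.ext _ _ fun m => by rw [hcon m, MvPolynomial.coeff_zero])
  obtain ⟨j, i, hij⟩ : ∃ j i, ((derivative P₀).coeff j).coeff i ≠ 0 := by
    by_contra hcon
    push Not at hcon
    exact hd (Polynomial.ext fun j => Polynomial.ext fun i => by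
      rw [hcon j i, coeff_zero, coeff_zero])
  set c : R₀ := Δ.coeff m₁ * ((derivative P₀).coeff j).coeff i with hc
  have hc0 : c ≠ 0 := mul_ne_zero hm₁ hij
  have hgood : ∀ (x : Nat.Primes × ℕ) (φ : R₀ →+* GF x.1 x.2), φ c ≠ 0 →
      Δ.map φ ≠ 0 ∧ derivative (P₀.map (mapRingHom φ)) ≠ 0 := by
    intro x φ hφ
    rw [hc, map_mul] at hφ
    refine ⟨fun h => hφ ?_, fun h => hφ ?_⟩
    · have h1 := congrArg (fun Q => MvPolynomial.coeff m₁ Q) h
      simp only [MvPolynomial.coeff_map, MvPolynomial.coeff_zero] at h1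
      rw [h1, zero_mul]
    · have h1 := congrArg (fun Q : (GF x.1 x.2)[X][X] => (Q.coeff j).coeff i) h
      simp only [derivative_map, Polynomial.coeff_map, coe_mapRingHom, Polynomial.coeff_zero] at h1
      rw [h1, mul_zero]
  obtain ⟨C', hC'⟩ := hA.hV_le hc0
  have hVr : ∀ x : Nat.Primes × ℕ, x.2 ≠ 0 →
      ((x.1 : ℝ) ^ x.2) * (hV R₀ c x : ℝ) ≤ C' * ((x.1 : ℝ) ^ x.2) ^ δ := by
    intro x hx
    exact_mod_cast hC' x hx
  have hrk : ((r + k - 1 : ℕ) : ℝ) = r + k - 1 := by
    rw [Nat.cast_sub (by omega)]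
    push_cast
    ring
  refine ⟨hk, ?_, ?_, ?_⟩
  · intro σ hσ
    refine summable_of_le (p := p) (C := (C + C') * M)
      (τ := σ - δ - (r + k - 1 : ℕ) - 1 / 2 - 1 / 4) (fun x => abs_nonneg _) (fun x hx => ?_)
      (by positivity) (by rw [hrk]; linarith) (fun x hx => ?_)
    · have := hA.isEmpty hx
      rw [TP, finsum_of_isEmpty]
      simp
    · have := finite_hom (R := R₀) (GF x.1 x.2)
      let _ := Fintype.ofFinite (R₀ →+* GF x.1 x.2)
      have hp : Fact (x.1 : ℕ).Prime := ⟨x.1.2⟩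
      set q : ℝ := (x.1 : ℝ) ^ x.2 with hq
      have hq1 : 1 ≤ q := by
        have : (1 : ℝ) ≤ x.1 := by exact_mod_cast x.1.2.one_le
        exact one_le_pow₀ this
      set A : ℝ := q ^ (r + k - 1) * (Real.sqrt q * Real.sqrt (Real.sqrt q)) with hA'
      set B : ℝ := q ^ (r + k) * Real.sqrt q with hB
      have hA0 : 0 ≤ A := by positivity
      have hB0 : 0 ≤ B := by positivity
      have hBA : B ≤ q * A := by
        have e : q ^ (r + k) = q * q ^ (r + k - 1) := by
          rw [← pow_succ']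
          congr 1
          omega
        have hs1 : 1 ≤ Real.sqrt (Real.sqrt q) := by
          rw [Real.one_le_sqrt, Real.one_le_sqrt]
          exact hq1
        rw [hB, hA', e]
        calc q * q ^ (r + k - 1) * Real.sqrt q = q * (q ^ (r + k - 1) * (Real.sqrt q * 1)) := by
              ring
          _ ≤ _ := by gcongr
      have h1 : |(TP P₀ Δ r x : ℝ)| ≤ hN R₀ x * (M * A) + hV R₀ c x * (M * B) := by
        rw [TP, finsum_eq_sum_of_fintype, Int.cast_sum]
        refine (Finset.abs_sum_le_sum_abs _ _).trans ?_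
        have h1 : ∀ φ : R₀ →+* GF x.1 x.2, |(RP P₀ Δ r x φ : ℝ)| ≤
            M * A + if φ c = 0 then M * B else 0 := by
          intro φ
          by_cases hφ : φ c = 0
          · rw [if_pos hφ]
            have := (H x hx φ).2.1
            have h2 : 0 ≤ M * A := by positivity
            linarith
          · rw [if_neg hφ, add_zero]
            obtain ⟨g1, g2⟩ := hgood x φ hφ
            have hxp : (x.1 : ℕ) = p := by
              by_contra hne
              exact (hA.isEmpty hne).false φ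
            have : CharP (GF x.1 x.2) p := by
              rw [← hxp]
              infer_instance
            have h4 := hC4 (GF x.1 x.2) (P₀.map (mapRingHom φ)) (hP.map φ) g2
            rw [card_GF hx] at h4
            push_cast at h4
            exact (H x hx φ).1 g1 h4
        refine (Finset.sum_le_sum (fun φ _ => h1 φ)).trans (le_of_eq ?_)
        rw [Finset.sum_add_distrib, Finset.sum_const, nsmul_eq_mul, Finset.card_univ, hN,
          Nat.card_eq_fintype_card]
        congr 1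
        rw [← Finset.sum_filter, Finset.sum_const, nsmul_eq_mul, hV, Nat.card_eq_fintype_card,
          Fintype.card_subtype]
      have h2 : |(TP P₀ Δ r x : ℝ)| ≤ (C + C') * M * (q ^ δ * A) := by
        have e1 : (hN R₀ x : ℝ) * (M * A) ≤ C * q ^ δ * (M * A) :=
          mul_le_mul_of_nonneg_right (hCr x hx) (by positivity)
        have e2 : (hV R₀ c x : ℝ) * (M * B) ≤ C' * q ^ δ * (M * A) := by
          calc (hV R₀ c x : ℝ) * (M * B) ≤ (hV R₀ c x : ℝ) * (M * (q * A)) := by gcongr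
            _ = (q * hV R₀ c x) * (M * A) := by ring
            _ ≤ C' * q ^ δ * (M * A) := mul_le_mul_of_nonneg_right (hVr x hx) (by positivity)
        calc _ ≤ _ := h1
          _ ≤ C * q ^ δ * (M * A) + C' * q ^ δ * (M * A) := add_le_add e1 e2
          _ = _ := by ring
      refine (mul_le_mul_of_nonneg_right h2 (pr_nonneg _ _)).trans (le_of_eq ?_)
      rw [← sqrt_sqrt_mul_pr, ← sqrt_mul_pr, ← pow_mul_pr, ← pow_mul_pr, hA', ← hq]
      ring
  · intro σ hσ
    refine summable_of_le (p := p) (C := C * M)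
      (τ := σ - δ - (r + k : ℕ) - 1 / 2) (fun x => ?_) (fun x hx => ?_)
      (by positivity) (by push_cast; linarith) (fun x hx => ?_)
    · apply finsum_nonneg
      intro φ
      rw [SA]
      apply finsum_nonneg
      intro u
      split_ifs
      · positivity
      · exact le_rfl
    · have := hA.isEmpty hx
      rw [finsum_of_isEmpty]
    · have h1 : (∑ᶠ φ : R₀ →+* GF x.1 x.2, SA P₀ Δ r x φ) ≤
          hN R₀ x * (M * (((x.1 : ℝ) ^ x.2) ^ (r + k) * Real.sqrt ((x.1 : ℝ) ^ x.2))) :=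
        finsum_le_card_mul fun φ => (H x hx φ).2.2.1
      refine (mul_le_mul_of_nonneg_right h1 (pr_nonneg _ _)).trans ?_
      rw [← sqrt_mul_pr, ← pow_mul_pr, ← pow_mul_pr]
      have h2 := mul_le_mul_of_nonneg_right (hCr x hx) (mul_nonneg (mul_nonneg hM0
        (by positivity : (0 : ℝ) ≤ (((x.1 : ℝ) ^ x.2) ^ (r + k) *
          Real.sqrt ((x.1 : ℝ) ^ x.2)))) (pr_nonneg σ x))
      calc _ ≤ _ := (le_of_eq (by ring)).trans h2
        _ = _ := by ring
  · intro σ hσ
    refine summable_of_le (p := p) (C := C * M)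
      (τ := σ - δ - (2 : ℕ)) (fun x => abs_nonneg _) (fun x hx => ?_)
      (by positivity) (by push_cast; linarith) (fun x hx => ?_)
    · have := hA.isEmpty hx
      rw [DZ, finsum_of_isEmpty]
      simp
    · have h1 : |(DZ P₀ x : ℝ)| ≤ hN R₀ x * (M * ((x.1 : ℝ) ^ x.2) ^ 2) := by
        apply abs_finsum_le_card_mul
        intro φ
        have h := (H x hx φ).2.2.2
        push_cast
        exact h
      refine (mul_le_mul_of_nonneg_right h1 (pr_nonneg _ _)).trans ?_
      rw [← pow_mul_pr, ← pow_mul_pr]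
      have h2 := mul_le_mul_of_nonneg_right (hCr x hx) (mul_nonneg (mul_nonneg hM0
        (by positivity : (0 : ℝ) ≤ ((x.1 : ℝ) ^ x.2) ^ 2)) (pr_nonneg σ x))
      calc _ ≤ _ := (le_of_eq (by ring)).trans h2
        _ = _ := by ring

end Pool.Agent.SZp
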