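import Pool.Agent.SZ.DimC
import Pool.Agent.SZ.Bir

/-!
# Finitely generated domains of characteristic `p`: definitions

`FGDp p A δ`: `A` is a finitely generated domain of characteristic `p` and transcendence degree
`δ` over `F_p` (so `Spec A` has dimension `δ`).
-/

namespace Pool.Agent.SZp

open Pool.Agent.Hhelper85 Polynomial Pool.Agent.SZ Pool.Agent.CAB

/-- A finitely generated domain of characteristic `p`, of transcendence degree `δ` over `F_p`. -/
structure FGDp (p : ℕ) (A : Type) [CommRing A] (δ : ℕ) : Prop where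
  dom : IsDomain A
  charp : CharP A p
  ft : Algebra.FiniteType ℤ A
  trdeg : ∀ [Algebra (ZMod p) A], Algebra.trdeg (ZMod p) A = δ

/-- The `F_p`-algebra structure. -/
noncomputable def FGDp.alg {p : ℕ} {A : Type} [CommRing A] {δ : ℕ} (hA : FGDp p A δ) :
    Algebra (ZMod p) A :=
  haveI := hA.charp
  ZMod.algebra A p

/-- Finite type over `ℤ` is the same as finite type over `F_p`. Proof: `FGDp.alg`, and
`Algebra.FiniteType.of_restrictScalars_finiteType ℤ (ZMod p) A`. -/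
theorem FGDp.ftp {p : ℕ} {A : Type} [CommRing A] {δ : ℕ} (hA : FGDp p A δ)
    [Algebra (ZMod p) A] : Algebra.FiniteType (ZMod p) A := by
  have := hA.ft
  exact Algebra.FiniteType.of_restrictScalars_finiteType ℤ (ZMod p) A

/-- Proof: `charP_of_injective_algebraMap`; finite type over `ℤ`: see the beginning of the second
part of `bd_aux` in SZ/DimC.lean (`Algebra.FiniteType.trans`); `Algebra (ZMod p) A` is a
subsingleton. -/
theorem FGDp.of_algebra {p : ℕ} [Fact p.Prime] {A : Type} [CommRing A] [IsDomain A]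
    [Algebra (ZMod p) A] [Algebra.FiniteType (ZMod p) A] {δ : ℕ}
    (h : Algebra.trdeg (ZMod p) A = δ) : FGDp p A δ := by
  refine ⟨inferInstance, ?_, ?_, ?_⟩
  · exact charP_of_injective_algebraMap (algebraMap (ZMod p) A).injective p
  · have h1 : Algebra.FiniteType ℤ (ZMod p) :=
      Algebra.FiniteType.of_surjective (Algebra.ofId ℤ (ZMod p)) (by
        intro x
        obtain ⟨n, hn⟩ := ZMod.intCast_surjective x
        exact ⟨n, by simpa [Algebra.ofId_apply] using hn⟩)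
    exact Algebra.FiniteType.trans h1 inferInstance
  · obtain ⟨j0, hj0⟩ : ∃ j : Algebra (ZMod p) A, @Algebra.trdeg (ZMod p) A _ _ j = δ := ⟨_, h⟩
    intro inst
    rw [Subsingleton.elim inst j0]
    exact hj0

/-- Over fields of another characteristic there are no points. Proof: `(p : A) = 0`, so `(p : GF) = 0`,
`CharP.cast_eq_zero_iff`. -/
theorem FGDp.isEmpty {p : ℕ} [Fact p.Prime] {A : Type} [CommRing A] {δ : ℕ} (hA : FGDp p A δ)
    {x : Nat.Primes × ℕ} (hxp : (x.1 : ℕ) ≠ p) : IsEmpty (A →+* GF x.1 x.2) := by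
  refine ⟨fun φ => hxp ?_⟩
  have := hA.charp
  have hp : p.Prime := Fact.out
  have : Fact (x.1 : ℕ).Prime := ⟨x.1.2⟩
  have e1 : ((p : ℕ) : A) = 0 := CharP.cast_eq_zero _ p
  have e2 : ((p : ℕ) : GF x.1 x.2) = 0 := by
    rw [← map_natCast φ p, e1, map_zero]
  exact (Nat.prime_dvd_prime_iff_eq x.1.2 hp).1
    ((CharP.cast_eq_zero_iff (GF x.1 x.2) (x.1 : ℕ) p).1 e2)

theorem FGDp.hN_zero {p : ℕ} [Fact p.Prime] {A : Type} [CommRing A] {δ : ℕ} (hA : FGDp p A δ)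
    {x : Nat.Primes × ℕ} (hxp : (x.1 : ℕ) ≠ p) : hN A x = 0 := by
  have := hA.isEmpty hxp
  exact Nat.card_eq_zero.2 (Or.inl this)

theorem FGDp.hV_zero {p : ℕ} [Fact p.Prime] {A : Type} [CommRing A] {δ : ℕ} (hA : FGDp p A δ)
    (g : A) {x : Nat.Primes × ℕ} (hxp : (x.1 : ℕ) ≠ p) : hV A g x = 0 := by
  have := hA.isEmpty hxp
  have h1 : IsEmpty {φ : A →+* GF x.1 x.2 // φ g = 0} := ⟨fun φ => this.false φ.1⟩
  exact Nat.card_eq_zero.2 (Or.inl h1)

/-- Upper bound for the number of points. Proof: as `FGD.hN_le` (SZ/DimC.lean), with the second part of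
`bd_all` and `FGDp.alg`, `FGDp.ftp`. -/
theorem FGDp.hN_le {p : ℕ} [Fact p.Prime] {A : Type} [CommRing A] {δ : ℕ} (hA : FGDp p A δ) :
    ∃ C : ℕ, ∀ x : Nat.Primes × ℕ, x.2 ≠ 0 → hN A x ≤ C * ((x.1 : ℕ) ^ x.2) ^ δ := by
  have hdom := hA.dom
  let _ : Algebra (ZMod p) A := hA.alg
  have hft : Algebra.FiniteType (ZMod p) A := hA.ftp
  obtain ⟨C, hC⟩ := (bd_all δ).2 p A δ hA.trdeg le_rfl
  refine ⟨C, fun x hx => ?_⟩
  have : Fact (x.1 : ℕ).Prime := ⟨x.1.2⟩
  have h5 := hC (GF x.1 x.2)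
  rw [card_GF hx] at h5
  exact h5

/-- Upper bound for the number of points of a proper closed subset. Proof: as `FGD.hV_le`
(SZ/DimC.lean): `exists_cover g`; for every prime `P` of the cover `A / P` is a domain of
characteristic `p` which is finitely generated over `F_p`, of transcendence degree `ε` with
`ε + 1 ≤ δ` (`dimB_same` with `F = ZMod p`), `bd_all`. -/
theorem FGDp.hV_le {p : ℕ} [Fact p.Prime] {A : Type} [CommRing A] {δ : ℕ} (hA : FGDp p A δ)
    {g : A} (hg : g ≠ 0) :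
    ∃ C : ℕ, ∀ x : Nat.Primes × ℕ, x.2 ≠ 0 →
      (x.1 : ℕ) ^ x.2 * hV A g x ≤ C * ((x.1 : ℕ) ^ x.2) ^ δ := by
  classical
  have hdom := hA.dom
  let _ : Algebra (ZMod p) A := hA.alg
  have hft : Algebra.FiniteType (ZMod p) A := hA.ftp
  have hftZ : Algebra.FiniteType ℤ A := hA.ft
  have hnoe : IsNoetherianRing A := Algebra.FiniteType.isNoetherianRing ℤ A
  obtain ⟨s, hs1, hs2⟩ := exists_cover g
  -- one prime
  have hP : ∀ P : Ideal A, P ∈ s → ∃ C : ℕ, ∀ x : Nat.Primes × ℕ, x.2 ≠ 0 →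
      (x.1 : ℕ) ^ x.2 * Nat.card (A ⧸ P →+* GF x.1 x.2) ≤ C * ((x.1 : ℕ) ^ x.2) ^ δ := by
    intro P hPs
    obtain ⟨hPp, hgP⟩ := hs1 P hPs
    have hft' : Algebra.FiniteType (ZMod p) (A ⧸ P) :=
      Algebra.FiniteType.of_surjective (Ideal.Quotient.mkₐ (ZMod p) P)
        (Ideal.Quotient.mkₐ_surjective (ZMod p) P)
    obtain ⟨ε, hε, hεδ⟩ := dimB_same (F := ZMod p) (A := A) (B := A ⧸ P)
      (algebraMap (ZMod p) (A ⧸ P)).injective (Ideal.Quotient.mkₐ (ZMod p) P)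
      (Ideal.Quotient.mkₐ_surjective (ZMod p) P) ⟨g, hg, by
        rw [Ideal.Quotient.mkₐ_eq_mk]
        exact Ideal.Quotient.eq_zero_iff_mem.2 hgP⟩ hA.trdeg
    obtain ⟨C, hC⟩ := (bd_all ε).2 p (A ⧸ P) ε hε le_rfl
    refine ⟨C, fun x hx => ?_⟩
    have : Fact (x.1 : ℕ).Prime := ⟨x.1.2⟩
    have h5 := hC (GF x.1 x.2)
    rw [card_GF hx] at h5
    have hq : 0 < (x.1 : ℕ) ^ x.2 := pow_pos x.1.2.pos _
    calc (x.1 : ℕ) ^ x.2 * Nat.card (A ⧸ P →+* GF x.1 x.2)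
        ≤ (x.1 : ℕ) ^ x.2 * (C * ((x.1 : ℕ) ^ x.2) ^ ε) := Nat.mul_le_mul_left _ h5
      _ = C * ((x.1 : ℕ) ^ x.2) ^ (ε + 1) := by ring
      _ ≤ C * ((x.1 : ℕ) ^ x.2) ^ δ :=
        Nat.mul_le_mul_left _ (Nat.pow_le_pow_right hq hεδ)
  choose! C hCN using hP
  refine ⟨∑ P ∈ s, C P, fun x hx => ?_⟩
  have h5 : hV A g x ≤ ∑ P ∈ s, Nat.card (A ⧸ P →+* GF x.1 x.2) := by
    have : Fact (x.1 : ℕ).Prime := ⟨x.1.2⟩
    have : Finite (GF x.1 x.2) := inferInstance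
    exact DimCAux.card_zero_le hs2 (GF x.1 x.2)
  rw [Finset.sum_mul]
  refine (Nat.mul_le_mul_left _ h5).trans ?_
  rw [Finset.mul_sum]
  exact Finset.sum_le_sum (fun P hPs => hCN P hPs x hx)

end Pool.Agent.SZp
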