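import Pool.Agent.CAB.MomU
import Pool.Agent.SZ.FamC

/-!
# The estimates of the moments at one point of the base
-/

namespace Pool.Agent.SZp

open Polynomial Finset Pool.Agent.Hhelper85 Pool.Agent.CAB

variable {R₀ : Type} [CommRing R₀] {P₀ : R₀[X][X]} {k : ℕ} {Δ : MvPolynomial (Fin k) R₀}

lemma abs_SP_le (P₀ : R₀[X][X]) (Δ : MvPolynomial (Fin k) R₀) (r : ℕ)
    (x : Nat.Primes × ℕ) (φ : R₀ →+* GF x.1 x.2) :
    |(SP P₀ Δ r x φ : ℝ)| ≤ SA P₀ Δ r x φ := by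
  classical
  let _ := Fintype.ofFinite (GF x.1 x.2)
  rw [SP, SA, finsum_eq_sum_of_fintype, finsum_eq_sum_of_fintype, Int.cast_sum]
  refine (Finset.abs_sum_le_sum_abs _ _).trans (Finset.sum_le_sum fun u _ => ?_)
  split_ifs
  · push_cast
    rw [abs_mul, abs_of_nonneg (by positivity :
      (0 : ℝ) ≤ (NF (fam (P₀.map (mapRingHom φ)) u) : ℝ) ^ r)]
  · simp

/-- All the estimates at one finite field and one point `φ` of the base. Proof: copy `pointwise`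
(CAB/MomU.lean), where the hypothesis `Δ.map φ ≠ 0` is used only for `RP` (the bad parameters) and
not for the last two estimates; the second estimate (for arbitrary `φ`) is `RP_bad`
(SZ/FamC.lean): it follows from the last two by `abs_SP_le`. -/
theorem pointwise_at {a : ℕ} (hmon : P₀.Monic) (hdeg : P₀.natDegree = a) (ha : 1 ≤ a)
    (hk : 2 ≤ k) {C4 : ℝ} (hC4 : 0 ≤ C4) (r : ℕ) :
    ∃ M : ℝ, 0 ≤ M ∧ ∀ x : Nat.Primes × ℕ, x.2 ≠ 0 → ∀ φ : R₀ →+* GF x.1 x.2,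
      (Δ.map φ ≠ 0 →
        ∑ᶠ u : Fin k → GF x.1 x.2, (af (fam (P₀.map (mapRingHom φ)) u) : ℝ) ^ 4 ≤
        C4 * ((x.1 : ℝ) ^ x.2) ^ (k + 2) →
        |(RP P₀ Δ r x φ : ℝ)| ≤ M * (((x.1 : ℝ) ^ x.2) ^ (r + k - 1) *
          (Real.sqrt ((x.1 : ℝ) ^ x.2) * Real.sqrt (Real.sqrt ((x.1 : ℝ) ^ x.2))))) ∧
      |(RP P₀ Δ r x φ : ℝ)| ≤ M * (((x.1 : ℝ) ^ x.2) ^ (r + k) *
        Real.sqrt ((x.1 : ℝ) ^ x.2)) ∧
      SA P₀ Δ r x φ ≤ M * (((x.1 : ℝ) ^ x.2) ^ (r + k) * Real.sqrt ((x.1 : ℝ) ^ x.2)) ∧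
      |(NZ (P₀.map (mapRingHom φ)) : ℝ) - ((x.1 : ℝ) ^ x.2) ^ 2| ≤
        M * ((x.1 : ℝ) ^ x.2) ^ 2 := by
  obtain ⟨M1, hM1, H1⟩ := moment_real a a C4 Δ.totalDegree (by positivity) (by positivity) hC4
    (by positivity) r
  obtain ⟨M2, hM2, H2⟩ := abs_moment_real a a (by positivity) (by positivity) r
  have common : ∀ x : Nat.Primes × ℕ, x.2 ≠ 0 → ∀ φ : R₀ →+* GF x.1 x.2,
      ∀ (i1 : Fintype (GF x.1 x.2)), (Fintype.card (GF x.1 x.2) : ℝ) = (x.1 : ℝ) ^ x.2 ∧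
      (∀ u : Fin k → GF x.1 x.2, |(af (fam (P₀.map (mapRingHom φ)) u) : ℝ)| ≤
        a * ((x.1 : ℝ) ^ x.2)) ∧
      ∑ u : Fin k → GF x.1 x.2, (af (fam (P₀.map (mapRingHom φ)) u) : ℝ) = 0 ∧
      ∑ u : Fin k → GF x.1 x.2, (af (fam (P₀.map (mapRingHom φ)) u) : ℝ) ^ 2 =
        ((x.1 : ℝ) ^ x.2) ^ (k - 1) * ((NZ (P₀.map (mapRingHom φ)) : ℝ) -
          ((x.1 : ℝ) ^ x.2) ^ 2) ∧
      ((x.1 : ℝ) ^ x.2) ^ (k - 1) * ((NZ (P₀.map (mapRingHom φ)) : ℝ) -
          ((x.1 : ℝ) ^ x.2) ^ 2) ≤ a * ((x.1 : ℝ) ^ x.2) ^ (k + 1) ∧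
      (NZ (P₀.map (mapRingHom φ)) : ℝ) ≤ a * ((x.1 : ℝ) ^ x.2) ^ 2 := by
    intro x hx φ i1
    classical
    have hm : (P₀.map (mapRingHom φ)).Monic := hmon.map _
    have hd : (P₀.map (mapRingHom φ)).natDegree = a := by rw [hmon.natDegree_map, hdeg]
    have hc : (Fintype.card (GF x.1 x.2) : ℝ) = (x.1 : ℝ) ^ x.2 := by
      have := card_GF hx
      rw [Nat.card_eq_fintype_card] at this
      rw [this]; push_cast; rfl
    have hnz : (NZ (P₀.map (mapRingHom φ)) : ℝ) ≤ a * ((x.1 : ℝ) ^ x.2) ^ 2 := by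
      rw [← hc]
      exact_mod_cast NZ_le hm hd ha
    refine ⟨hc, fun u => ?_, ?_, ?_, ?_, hnz⟩
    · rw [← hc]
      exact_mod_cast abs_af_le hm hd ha u
    · exact_mod_cast sum_af (P₀.map (mapRingHom φ)) (by omega : 1 ≤ k)
    · have h := sum_af_sq (P₀.map (mapRingHom φ)) hk
      rw [← hc]
      exact_mod_cast h
    · have hq : (0 : ℝ) ≤ ((x.1 : ℝ) ^ x.2) ^ (k - 1) := by positivity
      have e : ((x.1 : ℝ) ^ x.2) ^ (k + 1) =
          ((x.1 : ℝ) ^ x.2) ^ (k - 1) * ((x.1 : ℝ) ^ x.2) ^ 2 := by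
        rw [← pow_add]
        congr 1
        omega
      rw [e]
      nlinarith [sq_nonneg ((x.1 : ℝ) ^ x.2)]
  have ha0 : (0 : ℝ) ≤ (a : ℝ) := by positivity
  refine ⟨(1 + r) * (M1 + M2 + (a + 1)), by positivity, fun x hx φ => ?_⟩
  classical
  let i1 : Fintype (GF x.1 x.2) := Fintype.ofFinite _
  obtain ⟨hc, hb, h1, h2, h3, hnz⟩ := common x hx φ i1
  set q : ℝ := (x.1 : ℝ) ^ x.2 with hq
  have hq1 : 1 ≤ q := by
    rw [← hc]
    exact_mod_cast Fintype.card_pos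
  have hq0 : 0 < q := by linarith
  have hc' : (Nat.card (GF x.1 x.2) : ℝ) = q := by
    rw [Nat.card_eq_fintype_card, hc]
  have hbad : Δ.map φ ≠ 0 → (((univ : Finset (Fin k → GF x.1 x.2)).filter
      fun u => ¬ CAB.Good Δ φ u).card : ℝ) * q ≤ Δ.totalDegree * q ^ k := by
    intro hΔφ
    have hB := card_bad hΔφ
    have e : (univ.filter fun u : Fin k → GF x.1 x.2 => MvPolynomial.eval u (Δ.map φ) = 0) =
        univ.filter fun u => ¬ CAB.Good Δ φ u := by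
      ext u
      simp [CAB.Good, MvPolynomial.eval_map]
    rw [e] at hB
    have hB' : (((univ : Finset (Fin k → GF x.1 x.2)).filter
      fun u => ¬ CAB.Good Δ φ u).card : ℝ) * q ≤ (Δ.map φ).totalDegree * q ^ k := by
      rw [← hc]
      exact_mod_cast hB
    refine hB'.trans ?_
    gcongr
    exact Finset.sup_mono (MvPolynomial.support_map_subset _ _)
  have e1 : (RP P₀ Δ r x φ : ℝ) * q = q * ((∑ u : Fin k → GF x.1 x.2,
      (af (fam (P₀.map (mapRingHom φ)) u) : ℝ) *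
        (q - (af (fam (P₀.map (mapRingHom φ)) u) : ℝ)) ^ r) -
      ∑ u ∈ (univ.filter fun u : Fin k → GF x.1 x.2 => ¬ CAB.Good Δ φ u),
        (af (fam (P₀.map (mapRingHom φ)) u) : ℝ) *
        (q - (af (fam (P₀.map (mapRingHom φ)) u) : ℝ)) ^ r) +
      r * q ^ r * (q ^ (k - 1) * ((NZ (P₀.map (mapRingHom φ)) : ℝ) - q ^ 2)) := by
    have e2 : (SP P₀ Δ r x φ : ℝ) = (∑ u : Fin k → GF x.1 x.2,
      (af (fam (P₀.map (mapRingHom φ)) u) : ℝ) *
        (q - (af (fam (P₀.map (mapRingHom φ)) u) : ℝ)) ^ r) -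
      ∑ u ∈ (univ.filter fun u : Fin k → GF x.1 x.2 => ¬ CAB.Good Δ φ u),
        (af (fam (P₀.map (mapRingHom φ)) u) : ℝ) *
        (q - (af (fam (P₀.map (mapRingHom φ)) u) : ℝ)) ^ r := by
      rw [SP, finsum_eq_sum_of_fintype, Finset.sum_filter, ← Finset.sum_sub_distrib]
      push_cast
      apply Finset.sum_congr rfl
      intro u _
      by_cases hg : CAB.Good Δ φ u
      · rw [if_pos hg, if_neg (not_not.2 hg), NF_eq, hc']
        ring
      · rw [if_neg hg, if_pos hg, sub_self]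
    have e3 : q ^ (r + k - 2) * q = q ^ r * q ^ (k - 1) := by
      rw [← pow_succ, ← pow_add]
      congr 1
      omega
    rw [RP]
    push_cast
    rw [e2, ← hq]
    linear_combination (r : ℝ) * ((NZ (P₀.map (mapRingHom φ)) : ℝ) - q ^ 2) * e3
  have hMM : M1 + M2 + (a + 1) ≤ (1 + r) * (M1 + M2 + (a + 1)) := by
    have h0 : (0 : ℝ) ≤ r := Nat.cast_nonneg r
    have h1 : (0 : ℝ) ≤ M1 + M2 + (a + 1) := by positivity
    nlinarith
  have hSA : SA P₀ Δ r x φ ≤ (M1 + M2 + (a + 1)) * (q ^ (r + k) * Real.sqrt q) := by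
    have hmain := H2 (Fin k → GF x.1 x.2)
      (fun u => (af (fam (P₀.map (mapRingHom φ)) u) : ℝ)) q
      (q ^ (k - 1) * ((NZ (P₀.map (mapRingHom φ)) : ℝ) - q ^ 2)) k hq1 hb h2 h3
      (by rw [Fintype.card_fun, Fintype.card_fin, Nat.cast_pow, hc])
    have e2 : SA P₀ Δ r x φ ≤ ∑ u : Fin k → GF x.1 x.2,
        |(af (fam (P₀.map (mapRingHom φ)) u) : ℝ)| *
          |q - (af (fam (P₀.map (mapRingHom φ)) u) : ℝ)| ^ r := by
      rw [SA, finsum_eq_sum_of_fintype]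
      apply Finset.sum_le_sum
      intro u _
      by_cases hg : CAB.Good Δ φ u
      · rw [if_pos hg, ← hc', ← NF_eq, mul_comm, abs_of_nonneg (Nat.cast_nonneg
          (NF (fam (P₀.map (mapRingHom φ)) u)) :
            (0 : ℝ) ≤ (NF (fam (P₀.map (mapRingHom φ)) u) : ℝ))]
      · rw [if_neg hg]
        positivity
    refine e2.trans (hmain.trans ?_)
    apply mul_le_mul_of_nonneg_right _ (by positivity)
    linarith
  have hNZ : |(NZ (P₀.map (mapRingHom φ)) : ℝ) - q ^ 2| ≤ (M1 + M2 + (a + 1)) * q ^ 2 := by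
    have h0 : (0 : ℝ) ≤ (NZ (P₀.map (mapRingHom φ)) : ℝ) := by positivity
    have hqq : (0 : ℝ) ≤ q ^ 2 := by positivity
    have hM : (0 : ℝ) ≤ (M1 + M2) * q ^ 2 := by positivity
    rw [abs_le]
    constructor
    · nlinarith
    · nlinarith
  refine ⟨?_, ?_, ?_, ?_⟩
  · intro hΔφ h4'
    rw [finsum_eq_sum_of_fintype] at h4'
    have hmain := H1 (Fin k → GF x.1 x.2)
      (fun u => (af (fam (P₀.map (mapRingHom φ)) u) : ℝ)) (univ.filter fun u => ¬ CAB.Good Δ φ u) q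
      (q ^ (k - 1) * ((NZ (P₀.map (mapRingHom φ)) : ℝ) - q ^ 2)) k hq1 hb h1 h2 h3 h4'
      (hbad hΔφ)
    rw [← e1, abs_mul, abs_of_pos hq0] at hmain
    have e4 : q ^ (r + k) = q ^ (r + k - 1) * q := by
      rw [← pow_succ]
      congr 1
      omega
    rw [e4] at hmain
    have h5 : |(RP P₀ Δ r x φ : ℝ)| ≤ M1 * (q ^ (r + k - 1) *
        (Real.sqrt q * Real.sqrt (Real.sqrt q))) := by
      refine le_of_mul_le_mul_right (hmain.trans (le_of_eq ?_)) hq0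
      ring
    refine h5.trans ?_
    apply mul_le_mul_of_nonneg_right _ (by positivity)
    linarith
  · have h5 := (abs_SP_le P₀ Δ r x φ).trans hSA
    set M := M1 + M2 + (a + 1) with hM
    have hM0 : 0 ≤ M := by positivity
    have hs1 : 1 ≤ Real.sqrt q := by rwa [Real.one_le_sqrt]
    have e : (RP P₀ Δ r x φ : ℝ) = (SP P₀ Δ r x φ : ℝ) + r * (q ^ (r + k - 2) *
        ((NZ (P₀.map (mapRingHom φ)) : ℝ) - q ^ 2)) := by
      rw [RP]
      push_cast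
      rw [← hq]
      ring
    have e2 : q ^ (r + k) = q ^ (r + k - 2) * q ^ 2 := by
      rw [← pow_add]
      congr 1
      omega
    have h6 : |(r : ℝ) * (q ^ (r + k - 2) * ((NZ (P₀.map (mapRingHom φ)) : ℝ) - q ^ 2))| ≤
        r * (M * (q ^ (r + k) * Real.sqrt q)) := by
      rw [abs_mul, abs_mul, abs_of_nonneg (Nat.cast_nonneg r : (0 : ℝ) ≤ r),
        abs_of_nonneg (by positivity : (0 : ℝ) ≤ q ^ (r + k - 2))]
      apply mul_le_mul_of_nonneg_left _ (Nat.cast_nonneg r)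
      calc q ^ (r + k - 2) * |(NZ (P₀.map (mapRingHom φ)) : ℝ) - q ^ 2|
          ≤ q ^ (r + k - 2) * (M * q ^ 2) := mul_le_mul_of_nonneg_left hNZ (by positivity)
        _ = M * (q ^ (r + k) * 1) := by rw [e2]; ring
        _ ≤ M * (q ^ (r + k) * Real.sqrt q) := by gcongr
    rw [e]
    refine (abs_add_le _ _).trans ((add_le_add h5 h6).trans (le_of_eq ?_))
    ring
  · refine hSA.trans ?_
    apply mul_le_mul_of_nonneg_right hMM (by positivity)
  · refine hNZ.trans ?_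
    apply mul_le_mul_of_nonneg_right hMM (by positivity)

end Pool.Agent.SZp
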